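import Mathlib
import Pool.Agent.V1178.FW.Fin
set_option autoImplicit false

/-!
# The band-limited functions `ψ_b`, `1/8 < b ≤ 1/6`, are frame wavelets

Let `ψ_b` be the function in `L²(ℝ)` whose Fourier transform is the indicator function of
`(-1,-b) ∪ (b,1)`. It is a frame wavelet for every `b` with `1/8 < b ≤ 1/6`, with the frame bounds
`17 - 12√2` and `6`.
-/

namespace Pool.Agent.Results.MP_3fc48d_an.FrameWavelets

open MeasureTheory Set FourierTransform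
open scoped ENNReal Topology

/-- The Hilbert space `L²(ℝ)` of complex valued functions. -/
abbrev L2 : Type := Lp ℂ 2 (volume : Measure ℝ)

/-- The Fourier transform of `ψ` is the indicator function of `(-1,-b) ∪ (b,1)`; here `𝓕` is the
Fourier transform `𝓕 f (ξ) = ∫ e^{-2πixξ} f(x) dx`, extended to `L²(ℝ)` by Plancherel. -/
def IsPsi (b : ℝ) (ψ : L2) : Prop :=
  ((𝓕 ψ : L2) : ℝ → ℂ) =ᵐ[volume] (Ioo (-1) (-b) ∪ Ioo b 1).indicator fun _ => (1 : ℂ)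

/-- `ψ_{j,k}(x) = 2^{j/2} ψ(2^j x - k)` -/
noncomputable def dilate (ψ : ℝ → ℂ) (j k : ℤ) (x : ℝ) : ℂ :=
  ((2 : ℝ) ^ ((j : ℝ) / 2) : ℝ) * ψ (2 ^ j * x - k)

/-- The squared moduli of the coefficients `⟨f, ψ_{j,k}⟩ = ∫ f(x) conj(ψ_{j,k}(x)) dx`. -/
noncomputable def coefSq (ψ f : L2) (p : ℤ × ℤ) : ℝ :=
  ‖∫ x, f x * (starRingEnd ℂ) (dilate ψ p.1 p.2 x)‖ ^ 2

/-- The functions `ψ_{j,k}` form a frame for `L²(ℝ)` with the bounds `A` and `B`. -/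
def IsFrameWith (A B : ℝ) (ψ : L2) : Prop :=
  ∀ f : L2, Summable (coefSq ψ f) ∧ A * ‖f‖ ^ 2 ≤ ∑' p, coefSq ψ f p ∧
    ∑' p, coefSq ψ f p ≤ B * ‖f‖ ^ 2

/-- `ψ` is a frame wavelet. -/
def IsFrameWavelet (ψ : L2) : Prop := ∃ A B : ℝ, 0 < A ∧ A ≤ B ∧ IsFrameWith A B ψ

/-- **Theorem.** For every `b` with `1/8 < b ≤ 1/6` the function `ψ_b` is a frame wavelet. The
numbers `17 - 12√2 > 0` and `6` are frame bounds. -/
theorem result (b : ℝ) (h1 : 1 / 8 < b) (h2 : b ≤ 1 / 6) :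
    (∃ ψ : L2, IsPsi b ψ) ∧
    ∀ ψ : L2, IsPsi b ψ → IsFrameWavelet ψ ∧ 0 < 17 - 12 * √2 ∧ IsFrameWith (17 - 12 * √2) 6 ψ := by
  have hE : V1178.FW.EE b = Ioo (-1) (-b) ∪ Ioo b 1 := by
    ext ξ
    unfold V1178.FW.EE
    simp only [mem_ofPred_eq, mem_union, mem_Ioo]
    constructor
    · rintro ⟨h3, h4⟩
      rcases le_total 0 ξ with h | h
      · rw [abs_of_nonneg h] at h3 h4; exact Or.inr ⟨h3, h4⟩
      · rw [abs_of_nonpos h] at h3 h4; exact Or.inl ⟨by linarith, by linarith⟩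
    · rintro (⟨h3, h4⟩ | ⟨h3, h4⟩)
      · rw [abs_of_neg (by linarith)]; exact ⟨by linarith, by linarith⟩
      · rw [abs_of_pos (by linarith)]; exact ⟨h3, h4⟩
  have s2 : √2 ^ 2 = 2 := Real.sq_sqrt (by norm_num)
  have s3 : √2 < 1.4143 := by
    rw [Real.sqrt_lt' (by norm_num)]; norm_num
  have hpos : 0 < 17 - 12 * √2 := by linarith
  constructor
  · refine ⟨(𝓕⁻ ((V1178.FW.hc_L2 b 0 0).toLp (V1178.FW.hc b 0 0)) : L2), ?_⟩
    unfold IsPsi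
    rw [FourierTransform.fourier_fourierInv_eq, ← hE, ← V1178.FW.hc_zero]
    exact (V1178.FW.hc_L2 b 0 0).coeFn_toLp
  · intro ψ hψ
    have hψ' : ((𝓕 ψ : L2) : ℝ → ℂ) =ᵐ[volume] (V1178.FW.EE b).indicator fun _ => (1 : ℂ) := by
      rw [hE]; exact hψ
    have hf : IsFrameWith (17 - 12 * √2) 6 ψ := fun f => V1178.FW.frame b h1 h2 ψ hψ' f
    have s1 : 0 ≤ √2 := Real.sqrt_nonneg 2
    have s4 : 1 < √2 := by rw [Real.lt_sqrt (by norm_num)]; norm_num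
    exact ⟨⟨17 - 12 * √2, 6, hpos, by linarith, hf⟩, hpos, hf⟩

end Pool.Agent.Results.MP_3fc48d_an.FrameWavelets
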